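import Mathlib
import Pool.Agent.R82.Lab
import Pool.Agent.R82.Rand
import Pool.Agent.R82.Constr

/-!
# The codegree Turán density of the complete `k`-graph on `k + 1` vertices

It is not `1/2` for all `k`: it tends to `1` when `k` tends to infinity.

Construction.  The vertices are divided into `ℓ = 3 ^ m` classes of nearly equal sizes.  Every vector
of multiplicities (numbers of vertices in the classes) of a set of `k + 1` vertices gets a label, one
of the classes.  A `k`-set `e` is an edge if for all classes `j` such that the vector of `e`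
with one more vertex in the class `j` has label `j`, the following holds: in a random colouring of the
class `j` by `ZMod p`, which depends on the part `T` of `e` outside the class `j`, all colours appear
on the part of `e` in the class `j`, and their sum is not zero.  If the `k`-subsets of a `(k + 1)`-set
`W` with label `j` were all edges, one of its vertices in the class `j` would have the colour which is
the sum of the colours of all of them, and without it the sum is zero, a contradiction.  When a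
vertex of a class `i` is added to a `(k - 1)`-set `S`, the result is an edge with probability near
`1` unless the vector of `S` with two more vertices in the class `i` has label `i`.  There are
labellings such that this is the case for at most `2 ^ m` of the `3 ^ m` classes `i`, for all `S`.
-/

set_option autoImplicit false

open Finset Filter Topology

namespace Pool.Agent.Results.MP_af2786_co.CodegreeCliqueDensity

/-- `H` is (the edge set of) a `k`-graph on the vertex set `V`. -/
def IsKGraph {V : Type} (k : ℕ) (H : Finset (Finset V)) : Prop := ∀ e ∈ H, e.card = k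

/-- `H` contains a copy of `F`: some injection of the vertices sends every edge of `F` to an edge
of `H`. -/
def Contains {U V : Type} (F : Finset (Finset U)) (H : Finset (Finset V)) : Prop :=
  ∃ f : U ↪ V, ∀ e ∈ F, e.map f ∈ H

/-- The codegree of `T` in `H`: the number of vertices `v ∉ T` with `T ∪ {v} ∈ H`. -/
def codegree {n : ℕ} (H : Finset (Finset (Fin n))) (T : Finset (Fin n)) : ℕ :=
  (univ.filter fun v => v ∉ T ∧ insert v T ∈ H).card

/-- The minimum codegree of a `k`-graph `H`: the minimum of the codegrees of the `(k - 1)`-sets. -/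
noncomputable def minCodegree {n : ℕ} (k : ℕ) (H : Finset (Finset (Fin n))) : ℕ :=
  sInf {d | ∃ T : Finset (Fin n), T.card = k - 1 ∧ d = codegree H T}

/-- `exCodegree k n F` is the largest minimum codegree of an `F`-free `k`-graph on `n` vertices. -/
noncomputable def exCodegree {U : Type} (k n : ℕ) (F : Finset (Finset U)) : ℕ :=
  sSup {d | ∃ H : Finset (Finset (Fin n)), IsKGraph k H ∧ ¬ Contains F H ∧ d = minCodegree k H}

/-- The codegree Turán density `π_{k-1}(F) = limsup ex_{k-1}(n, F) / n`. -/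
noncomputable def codegreeDensity {U : Type} (k : ℕ) (F : Finset (Finset U)) : ℝ :=
  limsup (fun n : ℕ => (exCodegree k n F : ℝ) / (n : ℝ)) atTop

/-- The complete `k`-graph on `k + 1` vertices. -/
def complete (k : ℕ) : Finset (Finset (Fin (k + 1))) := univ.powersetCard k

theorem codegree_le {n : ℕ} (H : Finset (Finset (Fin n))) (T : Finset (Fin n)) :
    codegree H T ≤ n := by
  have := card_filter_le (univ : Finset (Fin n)) (fun v => v ∉ T ∧ insert v T ∈ H)
  rw [card_univ, Fintype.card_fin] at this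
  exact this

theorem minCodegree_le {n : ℕ} (k : ℕ) (H : Finset (Finset (Fin n))) : minCodegree k H ≤ n := by
  unfold minCodegree
  rcases Set.eq_empty_or_nonempty
    {d | ∃ T : Finset (Fin n), T.card = k - 1 ∧ d = codegree H T} with h | h
  · rw [h]; simp
  · obtain ⟨T, -, hd⟩ := Nat.sInf_mem h
    rw [hd]; exact codegree_le H T

theorem exCodegree_le {U : Type} (k n : ℕ) (F : Finset (Finset U)) : exCodegree k n F ≤ n := by
  unfold exCodegree
  rcases Set.eq_empty_or_nonempty {d | ∃ H : Finset (Finset (Fin n)), IsKGraph k H ∧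
    ¬ Contains F H ∧ d = minCodegree k H} with h | h
  · rw [h]; simp
  · refine csSup_le h ?_
    rintro d ⟨H, -, -, rfl⟩
    exact minCodegree_le k H

theorem ratio_le {U : Type} (k n : ℕ) (F : Finset (Finset U)) :
    (exCodegree k n F : ℝ) / (n : ℝ) ≤ 1 := by
  apply div_le_one_of_le₀ _ (Nat.cast_nonneg n)
  exact_mod_cast exCodegree_le k n F

theorem bdd {U : Type} (k : ℕ) (F : Finset (Finset U)) :
    IsBoundedUnder (· ≤ ·) atTop (fun n : ℕ => (exCodegree k n F : ℝ) / (n : ℝ)) :=
  isBoundedUnder_of ⟨1, fun n => ratio_le k n F⟩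

theorem density_le_one {U : Type} (k : ℕ) (F : Finset (Finset U)) : codegreeDensity k F ≤ 1 := by
  refine limsup_le_of_le ?_ (Eventually.of_forall fun n => ratio_le k n F)
  refine IsCoboundedUnder.of_frequently_ge (a := 0) ?_
  exact Frequently.of_forall fun n => by positivity

theorem le_exCodegree {U : Type} {k n d : ℕ} {F : Finset (Finset U)} (H : Finset (Finset (Fin n)))
    (h1 : IsKGraph k H) (h2 : ¬ Contains F H) (hn : k - 1 ≤ n)
    (h3 : ∀ T : Finset (Fin n), T.card = k - 1 → d ≤ codegree H T) : d ≤ exCodegree k n F := by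
  have h4 : minCodegree k H ≤ exCodegree k n F := by
    refine le_csSup ⟨n, ?_⟩ ⟨H, h1, h2, rfl⟩
    rintro x ⟨H', -, -, rfl⟩
    exact minCodegree_le k H'
  refine le_trans ?_ h4
  unfold minCodegree
  have hne : {d | ∃ T : Finset (Fin n), T.card = k - 1 ∧ d = codegree H T}.Nonempty := by
    obtain ⟨T, -, hT⟩ := Finset.exists_subset_card_eq (s := (univ : Finset (Fin n))) (n := k - 1)
      (by rw [card_univ, Fintype.card_fin]; exact hn)
    exact ⟨_, T, hT, rfl⟩
  obtain ⟨T, hT, hd⟩ := Nat.sInf_mem hne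
  rw [hd]
  exact h3 T hT

/-- a division of the vertices into classes of nearly equal sizes -/
theorem exists_classes (n ℓ : ℕ) (hℓ : 0 < ℓ) (I : Type) [Fintype I] [DecidableEq I]
    (hI : Fintype.card I = ℓ) :
    ∃ c : Fin n → I, ∀ i, ((univ : Finset (Fin n)).filter fun v => c v = i).card ≤ n / ℓ + 1 := by
  let e : I ≃ Fin ℓ := Fintype.equivFinOfCardEq hI
  refine ⟨fun v => e.symm ⟨v.val % ℓ, Nat.mod_lt _ hℓ⟩, fun i => ?_⟩
  rw [← Finset.card_range (n / ℓ + 1)]
  apply Finset.card_le_card_of_injOn (fun v => v.val / ℓ)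
  · intro v _
    rw [Finset.mem_coe, Finset.mem_range]
    exact Nat.lt_succ_of_le (Nat.div_le_div_right v.2.le)
  · intro v hv w hw h
    have hv' := (mem_filter.1 hv).2
    have hw' := (mem_filter.1 hw).2
    have h1 : v.val % ℓ = w.val % ℓ := by
      have := e.symm.injective (hv'.trans hw'.symm)
      simpa using this
    simp only at h
    apply Fin.ext
    rw [← Nat.div_add_mod v.val ℓ, ← Nat.div_add_mod w.val ℓ, h, h1]

theorem exists_r (p : ℕ) (hp : 2 ≤ p) : ∃ r, 1 ≤ r ∧ p ^ 2 * (p - 1) ^ r ≤ p ^ r := by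
  have hp0 : (0 : ℝ) < p := by positivity
  have hx0 : (0 : ℝ) ≤ ((p : ℝ) - 1) / p := by
    apply div_nonneg _ hp0.le
    have : (2 : ℝ) ≤ p := by exact_mod_cast hp
    linarith
  have hx1 : ((p : ℝ) - 1) / p < 1 := by
    rw [div_lt_one hp0]; linarith
  obtain ⟨r, hr⟩ := exists_pow_lt_of_lt_one (show (0 : ℝ) < 1 / (p : ℝ) ^ 2 by positivity) hx1
  refine ⟨r + 1, by omega, ?_⟩
  have h1 : (((p : ℝ) - 1) / p) ^ (r + 1) ≤ 1 / (p : ℝ) ^ 2 := by
    calc (((p : ℝ) - 1) / p) ^ (r + 1) ≤ (((p : ℝ) - 1) / p) ^ r :=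
          pow_le_pow_of_le_one hx0 hx1.le (Nat.le_succ r)
      _ ≤ _ := hr.le
  rw [div_pow, div_le_div_iff₀ (by positivity) (by positivity), one_mul] at h1
  have h2 : (((p - 1 : ℕ) : ℝ)) = (p : ℝ) - 1 := by
    rw [Nat.cast_sub (by omega)]; simp
  rw [← h2] at h1
  have h3 : (p - 1) ^ (r + 1) * p ^ 2 ≤ p ^ (r + 1) := by exact_mod_cast h1
  rw [mul_comm]
  exact h3

/-- the lower bound -/
theorem lower (ε : ℝ) (hε : 0 < ε) : ∃ k0 : ℕ, ∀ k, k0 ≤ k →
    1 - ε ≤ codegreeDensity k (complete k) := by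
  -- the depth of the labelling
  obtain ⟨m, hm⟩ := exists_pow_lt_of_lt_one (show (0 : ℝ) < ε / 4 by positivity)
    (show (2 / 3 : ℝ) < 1 by norm_num)
  obtain ⟨I, hF, hDec, J, C, hcard, hD, hM⟩ := Pool.Agent.R82.Lab.exists_lab m
  set ℓ : ℕ := 3 ^ m with hℓ
  have hℓ0 : 0 < ℓ := by positivity
  have hℓr : (0 : ℝ) < ℓ := by exact_mod_cast hℓ0
  set δ : ℝ := ε / (4 * ℓ) with hδ
  have hδ0 : 0 < δ := by positivity
  obtain ⟨a, ha⟩ := exists_nat_ge (1 / δ)
  -- the number of colours
  obtain ⟨p, hp⟩ : ∃ p, p = 8 ^ a * 2 + 1 := ⟨_, rfl⟩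
  have hp2 : 2 ≤ p := by
    have : 1 ≤ 8 ^ a := Nat.one_le_pow _ _ (by norm_num)
    omega
  have : NeZero p := ⟨by omega⟩
  obtain ⟨r, hr1, hr⟩ := exists_r p hp2
  refine ⟨ℓ * r + C + 1, fun k hk => ?_⟩
  -- large `n`
  obtain ⟨n0, hn0⟩ := exists_nat_ge (((k : ℝ) + 2 ^ m + ℓ) / (ε / 2))
  refine le_limsup_of_frequently_le ?_ (bdd k _)
  apply Eventually.frequently
  filter_upwards [eventually_ge_atTop (n0 + k + 1)] with n hn
  have hnpos : (0 : ℝ) < n := by
    have : 0 < n := by omega
    exact_mod_cast this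
  rw [le_div_iff₀ hnpos]
  obtain ⟨c, hc⟩ := exists_classes n ℓ hℓ0 I hcard
  set t : ℕ := ⌊δ * n⌋₊ + 1 with ht
  have htlt : δ * n < t := by
    rw [ht]; push_cast; exact Nat.lt_floor_add_one _
  have htle : (t : ℝ) ≤ δ * n + 1 := by
    rw [ht]; push_cast
    have := Nat.floor_le (show 0 ≤ δ * n by positivity)
    linarith
  have hnat : n ≤ a * t := by
    have h1 : (n : ℝ) ≤ a * t := by
      calc (n : ℝ) = (1 / δ) * (δ * n) := by field_simp
        _ ≤ a * t := mul_le_mul ha htlt.le (by positivity) (Nat.cast_nonneg a)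
    exact_mod_cast h1
  have hcount : 8 ^ Fintype.card (Fin n) * 2 ^ t < p ^ t := by
    rw [Fintype.card_fin]
    calc 8 ^ n * 2 ^ t ≤ 8 ^ (a * t) * 2 ^ t :=
          Nat.mul_le_mul_right _ (Nat.pow_le_pow_right (by norm_num) hnat)
      _ = (8 ^ a * 2) ^ t := by rw [mul_pow, pow_mul]
      _ < p ^ t := Nat.pow_lt_pow_left (by omega) (by omega)
  obtain ⟨φ, hφ⟩ := Pool.Agent.R82.Rand.exists_colouring (V := Fin n) p hr1 hr hcount
  set H := Pool.Agent.R82.Constr.HG J c p φ k with hH
  have hHk : IsKGraph k H := by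
    intro e he
    exact (mem_filter.1 he).2.1
  have hfree : ¬ Contains (complete k) H := by
    rintro ⟨f, hf⟩
    obtain ⟨e, heW, hek, heH⟩ := Pool.Agent.R82.Constr.free J c p φ hM
      (show C ≤ k by nlinarith [Nat.zero_le (ℓ * r)]) ((univ : Finset (Fin (k + 1))).map f)
      (by rw [card_map, card_univ, Fintype.card_fin])
    apply heH
    have : e = (univ.filter fun x => f x ∈ e).map f := by
      ext v
      simp only [Finset.mem_map, mem_filter, mem_univ, true_and]
      constructor
      · intro hv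
        obtain ⟨x, -, rfl⟩ := Finset.mem_map.1 (heW hv)
        exact ⟨x, hv, rfl⟩
      · rintro ⟨x, hx, rfl⟩
        exact hx
    rw [this]
    apply hf
    unfold complete
    rw [mem_powersetCard]
    refine ⟨subset_univ _, ?_⟩
    rw [← card_map f, ← this, hek]
  have hcod : ∀ T : Finset (Fin n), T.card = k - 1 → ⌈(1 - ε) * n⌉₊ ≤ codegree H T := by
    intro T hT
    rw [Nat.ceil_le]
    have h1 := Pool.Agent.R82.Constr.codeg_ge J c p φ (D := 2 ^ m) (b := n / ℓ + 1) (r := r) (t := t)
      hcard hM hD (by omega) (by omega) hc hφ T hT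
    rw [Fintype.card_fin] at h1
    have h2 : (n : ℝ) ≤ codegree H T + k + 2 ^ m * ((n / ℓ : ℕ) + 1) + ℓ * t := by
      exact_mod_cast h1
    have h3 : ((n / ℓ : ℕ) : ℝ) ≤ n / ℓ := Nat.cast_div_le
    have h4 : (2 : ℝ) ^ m * ((n / ℓ : ℕ) + 1) ≤ (ε / 4) * n + 2 ^ m := by
      have h5 : (2 : ℝ) ^ m * (n / ℓ) = (2 / 3) ^ m * n := by
        rw [hℓ, div_pow]; push_cast; field_simp
      have h6 : (2 : ℝ) ^ m * ((n / ℓ : ℕ) + 1) ≤ 2 ^ m * (n / ℓ) + 2 ^ m := by
        have : (2 : ℝ) ^ m * ((n / ℓ : ℕ) : ℝ) ≤ 2 ^ m * (n / ℓ) :=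
          mul_le_mul_of_nonneg_left h3 (by positivity)
        linarith
      rw [h5] at h6
      have h7 : (2 / 3 : ℝ) ^ m * n ≤ (ε / 4) * n := mul_le_mul_of_nonneg_right hm.le hnpos.le
      linarith
    have h8 : (ℓ : ℝ) * t ≤ (ε / 4) * n + ℓ := by
      have h9 : (ℓ : ℝ) * t ≤ ℓ * (δ * n + 1) := mul_le_mul_of_nonneg_left htle hℓr.le
      have h10 : (ℓ : ℝ) * (δ * n + 1) = (ε / 4) * n + ℓ := by
        rw [hδ]; field_simp
      linarith
    have h11 : (k : ℝ) + 2 ^ m + ℓ ≤ (ε / 2) * n := by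
      have h12 : ((k : ℝ) + 2 ^ m + ℓ) / (ε / 2) ≤ n := by
        refine hn0.trans ?_
        have : n0 ≤ n := by omega
        exact_mod_cast this
      rw [div_le_iff₀ (by positivity)] at h12
      linarith
    linarith
  have hfin := le_exCodegree H hHk hfree (by omega) hcod
  have h1 := Nat.le_ceil ((1 - ε) * (n : ℝ))
  have h2 : ((⌈(1 - ε) * (n : ℝ)⌉₊ : ℕ) : ℝ) ≤ (exCodegree k n (complete k) : ℝ) := by
    exact_mod_cast hfin
  linarith

/-- **The codegree Turán density of the complete `k`-graph on `k + 1` vertices is not `1/2` for all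
`k ≥ 2`**; it is greater than `1/2` for all large `k`, and tends to `1` as `k` tends to infinity. -/
theorem result :
    (¬ ∀ k : ℕ, 2 ≤ k → codegreeDensity k (complete k) = 1 / 2) ∧
    (∃ k0 : ℕ, ∀ k : ℕ, k0 ≤ k → 1 / 2 < codegreeDensity k (complete k)) ∧
    Tendsto (fun k : ℕ => codegreeDensity k (complete k)) atTop (𝓝 1) := by
  have h2 : ∃ k0 : ℕ, ∀ k : ℕ, k0 ≤ k → 1 / 2 < codegreeDensity k (complete k) := by
    obtain ⟨k0, hk0⟩ := lower (1 / 4) (by norm_num)
    exact ⟨k0, fun k hk => lt_of_lt_of_le (by norm_num) (hk0 k hk)⟩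
  refine ⟨?_, h2, ?_⟩
  · intro h
    obtain ⟨k0, hk0⟩ := h2
    have h3 := hk0 (k0 + 2) (by omega)
    rw [h (k0 + 2) (by omega)] at h3
    exact lt_irrefl _ h3
  · rw [Metric.tendsto_atTop]
    intro ε hε
    obtain ⟨k0, hk0⟩ := lower (ε / 2) (by positivity)
    refine ⟨k0, fun k hk => ?_⟩
    have h3 := hk0 k hk
    have h4 := density_le_one k (complete k)
    rw [Real.dist_eq, abs_lt]
    constructor <;> linarith

end Pool.Agent.Results.MP_af2786_co.CodegreeCliqueDensity
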